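import Pool.Agent.H64.CX.Arg
import Pool.Agent.H64.G.R_seed8.R250.MC4

set_option autoImplicit false

/-!
# MP_16b0ee_an: the strong Marshall bound for `arg ψ'`, all `a < 1/2`

For every `0 < a < 1/2` the integral of the question with `|arg ψ'|` in place of `|log ψ'|`, over the
whole circle `|z| = R`, is bounded by a constant which depends on `a` only, for all `R > 1` and all `ψ` in
the class `Σ`. Nothing is assumed on `ψ`. (The library has `a < 1/4`.)

The proof. See the hand-in `WholeClassRange`, with `α = i y`, `0 < |y| ≤ 1/2`: the Hilbert-Schmidt sums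
tend to at most `4 sinh² (π y) / (π² (1 + y²) σ (1 + σ) (2 + σ))` (Chebyshev's inequality, and a
hyperbolic inequality for `|(1 + x)^(1 - i y) - x^(1 - i y)|`), which is less than `1` for `σ = 2 y²`. So
the means of `|ψ'^(i τ)|` have the exponent `τ² / 2` for `|τ| ≤ 1`; then a Gaussian average for small
`arg ψ'` and finitely many `τ` for the rest (library criterion, MA15).
-/

namespace Pool.Agent.H76.Kept.ArgumentHalf

open Pool.Agent.W677.Mar Pool.Agent.R250.MC

/-- The point `r e^{iθ}`. -/
noncomputable def circ (r θ : ℝ) : ℂ := (r : ℂ) * Complex.exp ((θ : ℂ) * Complex.I)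

/-- `ψ ∈ Σ` and `h = log ψ'` (the branch vanishing at infinity), exactly as in the problem. -/
def IsSigma (ψ h : ℂ → ℂ) : Prop :=
  DifferentiableOn ℂ ψ {z : ℂ | 1 < ‖z‖} ∧
  Set.InjOn ψ {z : ℂ | 1 < ‖z‖} ∧
  (∃ b : ℂ, Filter.Tendsto (fun z => ψ z - z) (Bornology.cobounded ℂ) (nhds b)) ∧
  DifferentiableOn ℂ h {z : ℂ | 1 < ‖z‖} ∧
  (∀ z : ℂ, 1 < ‖z‖ → Complex.exp (h z) = deriv ψ z) ∧
  Filter.Tendsto h (Bornology.cobounded ℂ) (nhds 0)

/-- The integral of Q1 with `|h|²` replaced by `(arg ψ')² = (Im h)²`. -/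
noncomputable def marshallArg (a R : ℝ) (h : ℂ → ℂ) : ℝ :=
  (1 / (2 * Real.pi)) * ∫ θ in (0:ℝ)..(2 * Real.pi),
    Real.exp (a * (h (circ R θ)).im ^ 2 / Real.log (R ^ 2 / (R ^ 2 - 1)))

/-- **Result.** For every `0 < a < 1/2` the mean of `exp (a (arg ψ')² / log (R²/(R²-1)))` over the circle
`|z| = R` is bounded, uniformly for all `R > 1` and all `ψ` in `Σ`. -/
theorem result (a : ℝ) (ha0 : 0 < a) (ha : a < 1 / 2) :
    ∃ C : ℝ, ∀ R : ℝ, 1 < R → ∀ ψ h : ℂ → ℂ, IsSigma ψ h → marshallArg a R h ≤ C := by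
  obtain ⟨C, hC⟩ := Pool.Agent.H64.CX.arg_half ha0 ha
  refine ⟨(1 / (2 * Real.pi)) * C, fun R hR ψ h hS => ?_⟩
  have S : IsSig ψ h := hS
  have hr : R⁻¹ ∈ Set.Ioo (0 : ℝ) 1 := ⟨by positivity, inv_lt_one_of_one_lt₀ hR⟩
  have h1 := hC _ (hat h 0) S.sg R⁻¹ hr
  have h2 := circ_int h hR (fun w => Real.exp (a * w.im ^ 2 / Real.log (R ^ 2 / (R ^ 2 - 1))))
  rw [lam_R hR] at h1
  simp only [Pool.Agent.H64.CX.GA_norm, sq_abs] at h1
  unfold marshallArg
  apply mul_le_mul_of_nonneg_left _ (by positivity)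
  exact h2.trans_le h1

end Pool.Agent.H76.Kept.ArgumentHalf

/- Kept here (moved out of Results, limit of 4 hand-ins per problem). Its claim was:
Proves: For every real a with 0 < a < 1/2 there is a constant C such that for all R > 1 and all ψ in Σ, with h = log ψ' (so Im h = arg ψ'), the mean of exp(a (Im h)²/log(R²/(R²-1))) over the circle |z| = R is at most C.
Definitions: circ r θ = r e^(iθ); IsSigma ψ h: ψ is in Σ and h is the branch of log ψ' vanishing at infinity, as in the problem; marshallArg a R h: (1/2π) times the integral over θ from 0 to 2π of exp(a (Im h(Re^(iθ)))²/log(R²/(R²-1))).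
Relation: Partial answer: the bound of Q1 with |arg ψ'| in place of |log ψ'|, on the whole circle and for the whole class Σ, for all a < 1/2 (the library has a < 1/4; our hand-in WholeClassRange has |log ψ'| itself, but only a < 7/16). Nothing is assumed on ψ. In the proof: the means of |(ψ')^(iτ)| have the exponent τ²/2 for real |τ| ≤ 1 (conjecture τ²/4; Hedenmalm-Shimorin 2007: (3/8+o(1))τ² as τ → 0; compare also Baranov-Hedenmalm 2008 for complex exponents). New: the exact formula for the Laurent coefficients of negative index of (ψ(1/z)-ψ(1/ζ))^(-α), α purely imaginary.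
-/
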